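import Mathlib
import Pool.Agent.H74.Cov.PrimePower
import Pool.Agent.H54.Afa.Main

set_option autoImplicit false

namespace Pool.Agent.Results.MP_afa377_nt.CoveringAllBases

/-- The `i`-th base `t` digit of the standard representative in `{0, ..., t ^ n - 2}` of `a`. -/
def digit (t n : ℕ) (a : ZMod (t ^ n - 1)) (i : ℕ) : ℕ := a.val / t ^ i % t

/-- `b` covers `a`: every base `t` digit of `a` is at most the corresponding digit of `b`. -/
def Covered (t n : ℕ) (a b : ZMod (t ^ n - 1)) : Prop := ∀ i < n, digit t n a i ≤ digit t n b i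

theorem result (t n d : ℕ) (ht : 2 ≤ t) (hn : 1 ≤ n)
    (hd : (d : ZMod (t ^ n - 1)) ≠ 0)
    (hpow : ∀ k : ℕ, (d : ZMod (t ^ n - 1)) ≠ (t : ZMod (t ^ n - 1)) ^ k) :
    ∃ a b : ZMod (t ^ n - 1), a ≠ 0 ∧ b ≠ 0 ∧
      (Covered t n a b ∧ a ≠ b) ∧
      (Covered t n ((d : ZMod (t ^ n - 1)) * b) ((d : ZMod (t ^ n - 1)) * a) ∧
        (d : ZMod (t ^ n - 1)) * b ≠ (d : ZMod (t ^ n - 1)) * a) := by
  rcases Nat.lt_or_ge t 6 with h | h
  · have hpp : IsPrimePow t := by
      have h2 : t = 2 ∨ t = 3 ∨ t = 4 ∨ t = 5 := by omega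
      rcases h2 with rfl | rfl | rfl | rfl
      · exact Nat.prime_two.isPrimePow
      · exact Nat.prime_three.isPrimePow
      · exact ⟨2, 2, Nat.prime_two.prime, by norm_num, by norm_num⟩
      · exact Nat.prime_five.isPrimePow
    exact Pool.Agent.H74.Cov.PrimePower.result t n d hpp hn hd hpow
  · exact Pool.Agent.H54.Afa.covering_ge_six t n d h hn hd hpow

end Pool.Agent.Results.MP_afa377_nt.CoveringAllBases
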